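import Pool.Agent.H.MP_74bc7f_pr.B

set_option autoImplicit false

namespace Pool.Agent.Results.MP_74bc7f_pr.Yes

open Pool.Agent.H.MP_74bc7f_pr Finset

theorem result (d : ℕ) (hd : 3 ≤ d) : ∃ C : ℝ, 0 < C ∧ ∀ r : ℝ, 0 < r → r ≤ 1 →
    ∃ (V : Type) (a : V → V → ℕ) (R : Finset V), Countable V ∧ Infinite V ∧ Reg a d ∧
      R.Nonempty ∧ MTP a R ∧ (∀ o, rho a d o ≤ ENNReal.ofReal (2 * √(d - 1) / d + C * r)) ∧
      r * #R ≤ #{o ∈ R | 1 ≤ a o o} := by
  obtain ⟨D, rfl⟩ : ∃ D, d = D + 1 := ⟨d - 1, by omega⟩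
  have hD : 2 ≤ D := by omega
  have D2 : (2 : ℝ) ≤ D := by exact_mod_cast hD
  refine ⟨2, two_pos, fun r r0 r1 => ?_⟩
  have ex : ∃ k : ℕ, 1 < 2 * (D : ℝ) ^ (k + 1) * r := by
    obtain ⟨k, hk⟩ := pow_unbounded_of_one_lt r⁻¹ (show (1 : ℝ) < D by linarith)
    have := pow_le_pow_right₀ (show (1 : ℝ) ≤ D by linarith) (show k ≤ k + 1 by omega)
    rw [inv_lt_iff_one_lt_mul₀ r0] at hk
    exact ⟨k, by linarith [mul_le_mul_of_nonneg_right this r0.le]⟩
  classical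
  obtain ⟨V, a, R, h1, h2, h3, h4, h5, h6, h7⟩ := base (Nat.find ex) hD
  have c := TT_c (Nat.find ex) hD
  refine ⟨V, a, R, h1, h2, h3, card_pos.1 (two_pos.trans_le (h7.trans (card_filter_le _ _))), h4,
    fun o => (h5 o).trans (ENNReal.ofReal_le_ofReal ?_), le_trans ?_ (Nat.cast_le.2 h7)⟩
  · have := Nat.find_spec ex
    have p : 0 < (D : ℝ) ^ Nat.find ex := by positivity
    push_cast
    rw [add_sub_cancel_right, add_div]
    refine add_le_add le_rfl ?_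
    rw [div_le_iff₀ (by positivity), inv_le_iff_one_le_mul₀ p]
    rw [pow_succ] at this
    nlinarith [mul_pos p r0]
  · rw [h6]
    push_cast
    rcases e : Nat.find ex with _ | k
    · have : (#(TT D 0) : ℝ) ≤ 1 := by rw [e] at c; exact_mod_cast (by simpa using c : #(TT D 0) ≤ 1)
      nlinarith
    · have := not_lt.1 (Nat.find_min ex (show k < Nat.find ex by omega))
      have c' : (#(TT D (k + 1)) : ℝ) + 1 ≤ 2 * D ^ (k + 1) := by rw [e] at c; exact_mod_cast c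
      nlinarith

end Pool.Agent.Results.MP_74bc7f_pr.Yes
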